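import Mathlib

/-! THEOREM BIG, block NRM: the numbers. -/

set_option autoImplicit false

namespace Pool.Agent.Work.MP_db9399_bg.helper38

/-- the numbers `w`, `w1` -/
theorem numbers {g κ : ℝ} {l m r K1 : ℕ} (hg : 0 < g) (hκ : 0 < κ)
    (hl1 : 4 / g ≤ 2 * (l : ℝ) + 1) (hl2 : 4 / κ ≤ 2 * (l : ℝ) + 1) (hl3 : 1 ≤ l)
    (hm1 : 2 * (2 * l + 1) ≤ m) (hm2 : 28 * (2 * l + 1) * (K1 + 1) ^ 2 ≤ 2 * m + 1) :
    ∃ d0 : ℕ, ∀ d : ℕ, d0 ≤ d → ∃ w w1 : ℕ,
      ((m : ℝ) - 1) * w ≤ (1 - 1 / (2 * m + 1)) * ((1 - 2 / (2 * l + 1)) * d / (2 * m + 1)) ∧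
      (1 - 2 / (2 * m + 1)) * ((1 - 2 / (2 * l + 1)) * d / (2 * m + 1)) ≤ ((m : ℝ) - 1) * w ∧
      (2 * (m : ℝ) + 1) * m * w ≤ (1 - 3 / (2 * (2 * l + 1))) * d ∧
      (1 - g) * d ≤ (2 * (m : ℝ) + 1) * m * w ∧
      (1 - κ) * d + (2 * m + 1) * (r + 1) ≤ (2 * (m : ℝ) + 1) * m * w ∧
      6 * (d : ℝ) / (2 * m + 1) ≤ w1 ∧ (w1 : ℝ) ≤ 7 * d / (2 * m + 1) ∧
      ((K1 : ℝ) + 1) ^ 2 * w1 ≤ d / (4 * (2 * l + 1)) := by
  have hl : (1 : ℝ) ≤ l := by exact_mod_cast hl3
  set L : ℝ := 2 * (l : ℝ) + 1 with hL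
  have hL3 : 3 ≤ L := by linarith
  set N : ℝ := 2 * (m : ℝ) + 1 with hN
  have hmL : 2 * L ≤ m := by
    have : ((2 * (2 * l + 1) : ℕ) : ℝ) ≤ m := by exact_mod_cast hm1
    push_cast at this
    linarith
  have hNK : 28 * L * ((K1 : ℝ) + 1) ^ 2 ≤ N := by
    have : ((28 * (2 * l + 1) * (K1 + 1) ^ 2 : ℕ) : ℝ) ≤ ((2 * m + 1 : ℕ) : ℝ) := by
      exact_mod_cast hm2
    push_cast at this
    exact this
  have hm6 : (6 : ℝ) ≤ m := by linarith
  have hN0 : 0 < N := by linarith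
  have hL0 : 0 < L := by linarith
  obtain ⟨d1, hd1⟩ := exists_nat_ge (3 * m * N ^ 2 + 2 * (N * m) / g +
    2 * (N * m + N * ((r : ℝ) + 1)) / κ + N)
  refine ⟨d1, fun d hd => ?_⟩
  have hd' : 3 * m * N ^ 2 + 2 * (N * m) / g + 2 * (N * m + N * ((r : ℝ) + 1)) / κ + N ≤ d :=
    hd1.trans (by exact_mod_cast hd)
  have hr0 : (0 : ℝ) ≤ r := Nat.cast_nonneg _
  have e1 : 0 ≤ 3 * m * N ^ 2 := by positivity
  have e2 : 0 ≤ 2 * (N * m) / g := by positivity
  have e3 : 0 ≤ 2 * (N * m + N * ((r : ℝ) + 1)) / κ := by positivity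
  have f1 : 3 * m * N ^ 2 ≤ d := by linarith
  have f2 : 2 * (N * m) / g ≤ d := by linarith
  have f3 : 2 * (N * m + N * ((r : ℝ) + 1)) / κ ≤ d := by linarith
  have f4 : N ≤ d := by linarith
  have hd0 : 0 < (d : ℝ) := by linarith
  have f2' : N * m ≤ g / 2 * d := by
    rw [div_le_iff₀ hg] at f2
    linarith
  have f3' : N * m + N * ((r : ℝ) + 1) ≤ κ / 2 * d := by
    rw [div_le_iff₀ hκ] at f3
    linarith
  have g1 : 2 / L ≤ g / 2 := by
    rw [div_le_iff₀ hL0]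
    rw [div_le_iff₀ hg] at hl1
    linarith
  have g2 : 2 / L ≤ κ / 2 := by
    rw [div_le_iff₀ hL0]
    rw [div_le_iff₀ hκ] at hl2
    linarith
  have g3 : 2 / L ≤ 2 / 3 := by
    rw [div_le_div_iff₀ hL0 (by norm_num)]
    linarith
  have hm1' : 0 < (m : ℝ) - 1 := by linarith
  set q : ℝ := (1 - 2 / L) * d / N with hq
  have hqN : q * N = (1 - 2 / L) * d := by
    rw [hq]; field_simp
  have hq0 : 0 < q := by
    rw [hq]
    apply div_pos _ hN0
    apply mul_pos _ hd0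
    linarith
  have hN1 : 1 / N ≤ 1 := by
    rw [div_le_one hN0]; linarith
  have hN1' : (1 - 1 / N) * N = N - 1 := by field_simp
  have hN2' : (1 - 2 / N) * N = N - 2 := by field_simp
  have hx0 : 0 ≤ (1 - 1 / N) * q / ((m : ℝ) - 1) := by
    apply div_nonneg _ hm1'.le
    apply mul_nonneg _ hq0.le
    linarith
  set w : ℕ := ⌊(1 - 1 / N) * q / ((m : ℝ) - 1)⌋₊ with hw
  set w1 : ℕ := ⌈6 * (d : ℝ) / N⌉₊ with hw1
  have w_le : ((m : ℝ) - 1) * w ≤ (1 - 1 / N) * q := by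
    have := Nat.floor_le hx0
    rw [← hw, le_div_iff₀ hm1'] at this
    linarith
  have w_ge : (1 - 1 / N) * q - ((m : ℝ) - 1) ≤ ((m : ℝ) - 1) * w := by
    have := (Nat.lt_floor_add_one ((1 - 1 / N) * q / ((m : ℝ) - 1))).le
    rw [← hw, div_le_iff₀ hm1'] at this
    linarith
  have hNmw_le : N * m * w ≤ (1 - 3 / (2 * L)) * d := by
    have h1 : N * (((m : ℝ) - 1) * w) ≤ (N - 1) * q := by
      have := mul_le_mul_of_nonneg_left w_le hN0.le
      calc N * (((m : ℝ) - 1) * w) ≤ N * ((1 - 1 / N) * q) := this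
        _ = ((1 - 1 / N) * N) * q := by ring
        _ = (N - 1) * q := by rw [hN1']
    have h2 : ((m : ℝ) - 1) * (N * m * w) ≤ m * ((N - 1) * q) := by
      have := mul_le_mul_of_nonneg_left h1 (by linarith : (0 : ℝ) ≤ m)
      linarith
    have h3 : m * ((N - 1) * q) ≤ ((m : ℝ) - 1) * ((1 - 3 / (2 * L)) * d) := by
      have h4 : N * (m * ((N - 1) * q)) ≤ N * (((m : ℝ) - 1) * ((1 - 3 / (2 * L)) * d)) := by
        have h5 : N * (m * ((N - 1) * q)) = m * (N - 1) * ((1 - 2 / L) * d) := by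
          rw [← hqN]; ring
        rw [h5]
        have h6 : m * (N - 1) * (1 - 2 / L) ≤ N * ((m : ℝ) - 1) * (1 - 3 / (2 * L)) := by
          have h7 : 1 - 2 / L = (2 * (L - 2)) / (2 * L) := by field_simp
          have h8 : 1 - 3 / (2 * L) = (2 * L - 3) / (2 * L) := by field_simp
          rw [h7, h8, ← mul_div_assoc, ← mul_div_assoc]
          apply div_le_div_of_nonneg_right _ (by positivity)
          rw [hN]
          nlinarith
        have := mul_le_mul_of_nonneg_right h6 hd0.le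
        linarith
      exact le_of_mul_le_mul_left h4 hN0
    exact le_of_mul_le_mul_left (h2.trans h3) hm1'
  have hNmw_ge : (1 - 2 / L) * d - N * m ≤ N * m * w := by
    have h1 : (N - 1) * q - N * ((m : ℝ) - 1) ≤ N * (((m : ℝ) - 1) * w) := by
      have := mul_le_mul_of_nonneg_left w_ge hN0.le
      calc (N - 1) * q - N * ((m : ℝ) - 1) = ((1 - 1 / N) * N) * q - N * ((m : ℝ) - 1) := by
            rw [hN1']
        _ = N * ((1 - 1 / N) * q - ((m : ℝ) - 1)) := by ring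
        _ ≤ _ := this
    have h2 : m * ((N - 1) * q) - m * (N * ((m : ℝ) - 1)) ≤ ((m : ℝ) - 1) * (N * m * w) := by
      have := mul_le_mul_of_nonneg_left h1 (by linarith : (0 : ℝ) ≤ m)
      linarith
    have h3 : ((m : ℝ) - 1) * ((1 - 2 / L) * d) ≤ m * ((N - 1) * q) := by
      rw [← hqN]
      have h4 : ((m : ℝ) - 1) * N ≤ m * (N - 1) := by rw [hN]; nlinarith
      have := mul_le_mul_of_nonneg_right h4 hq0.le
      linarith
    have h5 : ((m : ℝ) - 1) * ((1 - 2 / L) * d - N * m) ≤ ((m : ℝ) - 1) * (N * m * w) := by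
      linarith
    exact le_of_mul_le_mul_left h5 hm1'
  have hw1_ge : 6 * (d : ℝ) / N ≤ w1 := Nat.le_ceil _
  have hw1_le : (w1 : ℝ) ≤ 7 * d / N := by
    have h1 := (Nat.ceil_lt_add_one (by positivity : 0 ≤ 6 * (d : ℝ) / N)).le
    rw [← hw1] at h1
    have h2 : 1 ≤ (d : ℝ) / N := by rw [one_le_div hN0]; exact f4
    have h3 : 7 * (d : ℝ) / N = 6 * d / N + d / N := by ring
    linarith
  refine ⟨w, w1, w_le, ?_, hNmw_le, ?_, ?_, hw1_ge, hw1_le, ?_⟩
  · -- lower bound for w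
    refine le_trans ?_ w_ge
    have h1 : ((m : ℝ) - 1) * N ≤ q := by
      rw [hq, le_div_iff₀ hN0]
      have h2 : d / 3 ≤ (1 - 2 / L) * d := by
        have := mul_le_mul_of_nonneg_right g3 hd0.le
        linarith
      nlinarith
    have h2 : (m : ℝ) - 1 ≤ q / N := by rw [le_div_iff₀ hN0]; exact h1
    have h3 : (1 - 1 / N) * q = (1 - 2 / N) * q + q / N := by ring
    linarith
  · have := mul_le_mul_of_nonneg_right g1 hd0.le
    linarith
  · have := mul_le_mul_of_nonneg_right g2 hd0.le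
    linarith
  · calc ((K1 : ℝ) + 1) ^ 2 * w1 ≤ ((K1 : ℝ) + 1) ^ 2 * (7 * d / N) :=
          mul_le_mul_of_nonneg_left hw1_le (by positivity)
      _ ≤ d / (4 * L) := by
          rw [← mul_div_assoc, div_le_div_iff₀ hN0 (by positivity)]
          have := mul_le_mul_of_nonneg_right hNK hd0.le
          linarith

/-- equipartition -/
theorem exists_pal {m w r : ℕ} : ∃ pal : Fin m × Fin w → Fin (r + 1), ∀ s,
    (m : ℝ) * w ≤ (r + 1) * (((Finset.univ.filter (fun y => pal y = s)).card : ℝ) + 1) := by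
  classical
  refine ⟨fun y => ⟨(finProdFinEquiv y : Fin (m * w)).val % (r + 1), Nat.mod_lt _ (by omega)⟩,
    fun s => ?_⟩
  have hinj : (m * w) / (r + 1) ≤ (Finset.univ.filter (fun y : Fin m × Fin w =>
      (⟨(finProdFinEquiv y : Fin (m * w)).val % (r + 1), Nat.mod_lt _ (by omega)⟩ : Fin (r + 1)) =
        s)).card := by
    have hlt : ∀ j : Fin ((m * w) / (r + 1)), j.val * (r + 1) + s.val < m * w := by
      intro j
      have h1 : (j.val + 1) * (r + 1) ≤ ((m * w) / (r + 1)) * (r + 1) :=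
        Nat.mul_le_mul_right _ j.2
      have h2 := Nat.div_mul_le_self (m * w) (r + 1)
      have h3 := s.2
      have h4 : (j.val + 1) * (r + 1) = j.val * (r + 1) + (r + 1) := by ring
      omega
    have h := Finset.card_le_card_of_injOn (s := (Finset.univ : Finset (Fin ((m * w) / (r + 1)))))
      (t := Finset.univ.filter (fun y : Fin m × Fin w =>
        (⟨(finProdFinEquiv y : Fin (m * w)).val % (r + 1), Nat.mod_lt _ (by omega)⟩ :
          Fin (r + 1)) = s))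
      (fun j => finProdFinEquiv.symm ⟨j.val * (r + 1) + s.val, hlt j⟩) ?_ ?_
    · simpa using h
    · intro j _
      simp only [Finset.coe_filter, Finset.mem_univ, true_and, Set.mem_ofPred_eq,
        Equiv.apply_symm_apply]
      apply Fin.ext
      simp only
      rw [Nat.mul_add_mod', Nat.mod_eq_of_lt s.2]
    · intro j _ j' _ hjj
      have h1 := finProdFinEquiv.symm.injective hjj
      rw [Fin.mk.injEq] at h1
      have h2 : j.val * (r + 1) = j'.val * (r + 1) := by omega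
      exact Fin.ext (Nat.eq_of_mul_eq_mul_right (by omega) h2)
  have h1 : m * w ≤ (r + 1) * ((m * w) / (r + 1) + 1) := by
    have := Nat.lt_mul_div_succ (m * w) (Nat.succ_pos r)
    simpa using this.le
  have h2 : m * w ≤ (r + 1) * ((Finset.univ.filter (fun y : Fin m × Fin w =>
      (⟨(finProdFinEquiv y : Fin (m * w)).val % (r + 1), Nat.mod_lt _ (by omega)⟩ : Fin (r + 1)) =
        s)).card + 1) := h1.trans (Nat.mul_le_mul_left _ (by omega))
  exact_mod_cast h2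

end Pool.Agent.Work.MP_db9399_bg.helper38
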